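import Mathlib
import Pool.Agent.Helper503_BS.GapSM

/-!
# A gap in the growth of the ranks of Chow groups and of the orders of L-functions in towers

Let `X` be a smooth projective variety over the number field `K`, let `F/K` be an infinite Galois
extension with group `Γ`, and let `K ⊆ F_0 ⊆ F_1 ⊆ F_2 ⊆ ...` be finite Galois extensions of `K` in
`F`, `W n = Gal(F/F_n)`. For the fields `M` between `K` and some `F_n`, normal or not, let `o` be the
order of vanishing of `L(H^(2i-1)(X_M), s)` at `s = i`, and let `ρ` be the rank of `CH^i_hom(X_M)`.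

Let `m n` be such that `Gal(F_n/F_{n-1})` is contained in an abelian normal subgroup `A` of
`Gal(F_n/K)` such that the linear characters of `A` which are not trivial on `Gal(F_n/F_{n-1})` have
more than `m n` conjugates (`LongOrb`). Then the orders, and likewise the ranks, cannot begin to grow
slowly: if the order over `F_n` is at most `m n` for `n₀ < n ≤ N`, then the order over every field `M`
between `K` and `F_N` is the order over `M ∩ F_{n₀}`; and the same is true for the ranks. So either
the order over `F_n` exceeds `m n` for infinitely many `n`, or the orders over all the fields `M` are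
those over their intersections with one finite extension `F_{n₀}`, hence bounded. If both sides do
not exceed `m n` for `n > n₀`, then the conjecture over all the fields `M` is equivalent to the
conjecture over the finitely many subfields of `F_{n₀}/K`.

The second part says that this applies to the extensions `F/K` with group `SL₂(ℤ_p)`, `p` odd, `F_n`
being the fixed field of the congruence subgroup modulo `p ^ n`, with `m n = p ^ (2 ⌊n / 2⌋ - 1) - 1`,
which is at least `p ^ (n - 2) - 1`. (The nontrivial irreducible representations of the congruence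
quotients which are new at the level `n` have degree at least `(p² - 1) p ^ (n - 2) / 2`.) For
example, let `K = ℚ(μ_p)` and let `C` be an elliptic curve over `ℚ` with surjective
`G_ℚ → Aut(T_p C) = GL₂(ℤ_p)`. The group of `K(C[p^∞])/K` is the product of `SL₂(ℤ_p)` and of the group
of scalars in `1 + p ℤ_p`, whose fixed field is such an extension `F` of `K`.

The hypotheses on the L-functions (with the variable shifted such that the centre is `s = 1`) are the
ones of `Pool.Agent.H541R3.ART.ArtinData (Γ ⧸ W) 1`, `W = W n`: functions `L χ` for the irreducible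
characters `χ` of `Γ ⧸ W`, the L-functions of `H^(2i-1)(X) ⊗ χ`, and `Lin H ψ` for the linear
characters `ψ` of the subgroups `H`, the L-functions over the fixed field of `H` twisted by `ψ`, such
that `L χ` is meromorphic and not identically zero near the centre, `Lin H ψ` has no pole there, and
`Lin H ψ` is the product of the `L χ ^ ⟨χ|_H, ψ⟩`. This is known for all `F/K` for example for abelian
varieties with complex multiplication over `K`. `P` is the group `CH^i_hom(X_{F_n})` with its action of
`Γ ⧸ W`, assumed to be finitely generated (part (i) of the conjecture, known for `i = 1`); the rank of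
the group of elements fixed by `U / W` is the rank of `CH^i_hom(X_M)` for the fixed field `M` of `U`.
-/

set_option autoImplicit false

open Pool.Agent.Helper503_BS

/-- (1) Let `W n` be a decreasing sequence of normal subgroups of finite index of `Γ` (the Galois
groups of `F/F_n`), let `o U` and `ρ U` be the order of vanishing and the rank over the fixed field of
`U`, for the subgroups `U` which contain some `W n`, and let `W n / W (n + 1)` satisfy
`LongOrb (m (n + 1))` in `Γ / W (n + 1)` for all `n ≥ n₀`. If `o (W n) ≤ m n` for `n₀ < n ≤ N`, then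
`o U = o (U ⊔ W n₀)` for all `U` which contain `W N`. The same is true for `ρ`. If `o (W n) ≤ m n` and
`ρ (W n) ≤ m n` for all `n > n₀`, then `o U = ρ U` holds for all `U` which contain some `W n`, `n ≥ n₀`,
if and only if it holds for those which contain `W n₀`.

(2) If `f` is a homomorphism from `Γ` onto `SL₂(ℤ / p ^ (n + 1))`, `p` an odd prime, `n ≥ 1`, then the
subgroup of the elements which are trivial modulo `p ^ n`, modulo the kernel of `f`, satisfies
`LongOrb (p ^ (2 ⌊(n + 1) / 2⌋ - 1) - 1)`. -/
theorem Pool.Agent.Results.MP_b8021b_nt.GrowthGap.result :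
    (∀ (Γ : Type) [Group Γ] (W : ℕ → Subgroup Γ) [∀ n, (W n).Normal]
      (o ρ : Subgroup Γ → ℕ) (m : ℕ → ℕ) (n₀ : ℕ),
      (∀ n, (W n).index ≠ 0) → Antitone W → (∀ n, ModelsL o ρ (W n)) →
      (∀ n, n₀ ≤ n → LongOrb (m (n + 1)) ((W n).map (QuotientGroup.mk' (W (n + 1))))) →
      (∀ N, n₀ ≤ N → (∀ n, n₀ < n → n ≤ N → o (W n) ≤ m n) →
        ∀ U : Subgroup Γ, W N ≤ U → o U = o (U ⊔ W n₀)) ∧
      (∀ N, n₀ ≤ N → (∀ n, n₀ < n → n ≤ N → ρ (W n) ≤ m n) →
        ∀ U : Subgroup Γ, W N ≤ U → ρ U = ρ (U ⊔ W n₀)) ∧
      ((∀ n, n₀ < n → o (W n) ≤ m n ∧ ρ (W n) ≤ m n) →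
        ((∀ n, n₀ ≤ n → ∀ U : Subgroup Γ, W n ≤ U → o U = ρ U) ↔
          ∀ U : Subgroup Γ, W n₀ ≤ U → o U = ρ U))) ∧
    (∀ (Γ : Type) [Group Γ] (p : ℕ) [Fact p.Prime] (_ : p ≠ 2) (n : ℕ) (_ : 1 ≤ n)
      (f : Γ →* Matrix.SpecialLinearGroup (Fin 2) (ZMod (p ^ (n + 1)))) (_ : Function.Surjective f)
      (V : Subgroup Γ),
      (∀ x, x ∈ V ↔ Matrix.SpecialLinearGroup.map
        (ZMod.castHom (pow_dvd_pow p (Nat.le_succ n)) (ZMod (p ^ n))) (f x) = 1) →
      LongOrb (p ^ (2 * ((n + 1) / 2) - 1) - 1) (V.map (QuotientGroup.mk' f.ker))) := by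
  refine ⟨?_, ?_⟩
  · intro Γ _ W _ o ρ m n₀ hfin hanti hmod hlong
    have key := gap_chain W hfin hanti hmod m n₀ hlong
    refine ⟨fun N hN => (key N hN).1, fun N hN => (key N hN).2, fun hm => ⟨?_, ?_⟩⟩
    · intro h U hU
      exact h n₀ le_rfl U hU
    · intro h n hn U hU
      rw [(key n hn).1 (fun k h1 _ => (hm k h1).1) U hU,
        (key n hn).2 (fun k h1 _ => (hm k h1).2) U hU]
      exact h _ le_sup_right
  · intro Γ _ p _ hp n hn f hf V hV
    exact longOrb_tower' hp hn f hf V fun x hx => (hV x).mp hx
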